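import Pool.Agent.L0h99.MN.Stm

set_option autoImplicit false

/-! Project MN, module PAR. -/

namespace Pool.Agent.L0h71.MN

open Finset
open Pool.Agent.L0h99.MN

open Classical in
lemma ee_card {V : Type} [Fintype V] [DecidableEq V] (G : SimpleGraph V) (P Q : Finset V) :
    ee G P Q = (((P ×ˢ Q).filter (fun p => G.Adj p.1 p.2)).card : ℤ) := by
  unfold ee
  rw [Finset.card_filter, Finset.sum_product]
  push_cast
  refine Finset.sum_congr rfl fun x _ => ?_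
  have e : N G x ∩ Q = Q.filter (fun y => G.Adj x y) := by
    ext y
    rw [Finset.mem_inter, Finset.mem_filter, mem_N, and_comm]
  rw [e, Finset.card_filter]
  push_cast
  rfl

theorem PAR (h : St_PAX) : St_PAR := by
  classical
  intro V _ _ G A P Q hU hP hQ hdis
  obtain ⟨-, s, hs⟩ := hP
  obtain ⟨-, s', hs'⟩ := hQ
  rw [ee_card G P Q, ee_card G (P ∩ A) (Q ∩ A)]
  obtain ⟨E, hE⟩ : ∃ E, E = (P ×ˢ Q).filter (fun p => G.Adj p.1 p.2) := ⟨_, rfl⟩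
  obtain ⟨E', hE'⟩ : ∃ E', E' = ((P ∩ A) ×ˢ (Q ∩ A)).filter (fun p => G.Adj p.1 p.2) := ⟨_, rfl⟩
  rw [← hE, ← hE']
  have hmem : ∀ p ∈ E, p.1 ∈ P ∧ p.2 ∈ Q ∧ G.Adj p.1 p.2 := by
    intro p hp
    rw [hE, Finset.mem_filter, Finset.mem_product] at hp
    exact ⟨hp.1.1, hp.1.2, hp.2⟩
  have key : ∀ p ∈ E, ∀ p' ∈ E, p ≠ p' →
      (p.1 ∈ A ∧ p'.1 ∈ A ∧ s p.1 ≠ s p'.1) ∧ (p.2 ∈ A ∧ p'.2 ∈ A) := by
    intro p hp p' hp' hne
    obtain ⟨a1, a2, a3⟩ := hmem p hp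
    obtain ⟨b1, b2, b3⟩ := hmem p' hp'
    have hno : ∀ m n : ℕ, m + n + 2 ≤ 11 → Lk G P p.1 p'.1 m → Lk G Q p.2 p'.2 n → False := by
      intro m n hmn h1 h2
      obtain ⟨e1, e2⟩ := h V G P Q m n p.1 p'.1 p.2 p'.2 hU hdis a1 b1 a2 b2 a3 b3 h1 h2 hmn
      exact hne (Prod.ext e1 e2)
    have c1 : ¬ (p.1 ∉ A ∨ p'.1 ∉ A ∨ s p.1 = s p'.1) := by
      intro hc
      exact hno 4 5 (by omega) ((hs p.1 a1 p'.1 b1).2 hc) (hs' p.2 a2 p'.2 b2).1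
    have c2 : ¬ (p.2 ∉ A ∨ p'.2 ∉ A ∨ s' p.2 = s' p'.2) := by
      intro hc
      exact hno 5 4 (by omega) (hs p.1 a1 p'.1 b1).1 ((hs' p.2 a2 p'.2 b2).2 hc)
    push Not at c1 c2
    exact ⟨c1, c2.1, c2.2.1⟩
  have h2 : E.card ≤ 2 := by
    by_contra hcon
    obtain ⟨p, hp, q, hq, r, hr, hpq, hpr, hqr⟩ := Finset.two_lt_card.1 (not_le.1 hcon)
    have k1 := (key p hp q hq hpq).1.2.2
    have k2 := (key p hp r hr hpr).1.2.2
    have k3 := (key q hq r hr hqr).1.2.2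
    cases hsp : s p.1 <;> cases hsq : s q.1 <;> cases hsr : s r.1 <;> simp_all
  rcases Nat.eq_zero_or_pos E.card with h0 | hpos
  · left
    rw [h0]
    rfl
  · right
    obtain ⟨p, hp⟩ := Finset.card_pos.1 hpos
    obtain ⟨a1, a2, a3⟩ := hmem p hp
    refine ⟨⟨p.1, a1, p.2, a2, a3⟩, ?_⟩
    by_cases h1 : E.card ≤ 1
    · have h3 : (0 : ℤ) ≤ (E'.card : ℤ) := Int.natCast_nonneg _
      have h4 : (E.card : ℤ) ≤ 1 := by exact_mod_cast h1
      linarith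
    · have hsub : E ⊆ E' := by
        intro q hq
        obtain ⟨b1, b2, b3⟩ := hmem q hq
        obtain ⟨r, hr, hne⟩ := Finset.exists_mem_ne (not_le.1 h1) q
        obtain ⟨k1, k2⟩ := key q hq r hr hne.symm
        rw [hE', Finset.mem_filter, Finset.mem_product, Finset.mem_inter, Finset.mem_inter]
        exact ⟨⟨⟨b1, k1.1⟩, b2, k2.1⟩, b3⟩
      have h5 : (E.card : ℤ) ≤ (E'.card : ℤ) := by exact_mod_cast Finset.card_le_card hsub
      have h6 : (E.card : ℤ) ≤ 2 := by exact_mod_cast h2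
      linarith

end Pool.Agent.L0h71.MN
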