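import Pool.Agent.L0h99.MN.Stm

set_option autoImplicit false

/-! Project MN, module SDP. -/

namespace Pool.Agent.L0h71.MN

open Finset
open Pool.Agent.L0h99.MN

section

variable {V : Type} [Fintype V] [DecidableEq V]

/-- a walk with at most `n` edges inside `P` -/
def Wk (G : SimpleGraph V) (P : Finset V) (x y : V) (n : ℕ) : Prop :=
  ∃ p : G.Walk x y, p.length ≤ n ∧ ∀ z ∈ p.support, z ∈ P

omit [Fintype V] in
lemma Wk.lk {G : SimpleGraph V} {P : Finset V} {x y : V} {n : ℕ} (h : Wk G P x y n) :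
    Lk G P x y n := by
  obtain ⟨p, h1, h2⟩ := h
  exact ⟨p.bypass, p.bypass_isPath, p.length_bypass_le_length.trans h1,
    fun z hz => h2 z (p.support_bypass_subset_support hz)⟩

omit [Fintype V] [DecidableEq V] in
lemma Wk.symm {G : SimpleGraph V} {P : Finset V} {x y : V} {n : ℕ} (h : Wk G P x y n) :
    Wk G P y x n := by
  obtain ⟨p, h1, h2⟩ := h
  refine ⟨p.reverse, by rw [SimpleGraph.Walk.length_reverse]; exact h1, fun z hz => ?_⟩
  rw [SimpleGraph.Walk.support_reverse, List.mem_reverse] at hz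
  exact h2 z hz

omit [Fintype V] [DecidableEq V] in
lemma Wk.trans {G : SimpleGraph V} {P : Finset V} {x y z : V} {m n : ℕ} (h : Wk G P x y m)
    (h' : Wk G P y z n) : Wk G P x z (m + n) := by
  obtain ⟨p, h1, h2⟩ := h
  obtain ⟨q, h3, h4⟩ := h'
  refine ⟨p.append q, by rw [SimpleGraph.Walk.length_append]; omega, fun u hu => ?_⟩
  rw [SimpleGraph.Walk.mem_support_append_iff] at hu
  rcases hu with hu | hu
  · exact h2 u hu
  · exact h4 u hu

omit [Fintype V] [DecidableEq V] in
lemma Wk.mono {G : SimpleGraph V} {P : Finset V} {x y : V} {m n : ℕ} (h : Wk G P x y m)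
    (hmn : m ≤ n) : Wk G P x y n := by
  obtain ⟨p, h1, h2⟩ := h
  exact ⟨p, h1.trans hmn, h2⟩

omit [Fintype V] [DecidableEq V] in
lemma Wk.refl {G : SimpleGraph V} {P : Finset V} {x : V} (hx : x ∈ P) : Wk G P x x 0 := by
  refine ⟨SimpleGraph.Walk.nil, le_refl _, fun z hz => ?_⟩
  rw [SimpleGraph.Walk.support_nil, List.mem_singleton] at hz
  rw [hz]
  exact hx

omit [Fintype V] [DecidableEq V] in
lemma Wk.adj {G : SimpleGraph V} {P : Finset V} {x y : V} (hx : x ∈ P) (hy : y ∈ P)
    (h : G.Adj x y) : Wk G P x y 1 := by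
  refine ⟨SimpleGraph.Walk.cons h SimpleGraph.Walk.nil, le_refl _, fun z hz => ?_⟩
  rw [SimpleGraph.Walk.support_cons, SimpleGraph.Walk.support_nil, List.mem_cons,
    List.mem_singleton] at hz
  rcases hz with rfl | rfl
  · exact hx
  · exact hy

end

theorem SDP : St_SDP := by
  classical
  intro V _ _ G a b A L hab hdis hLA hL
  have ha : a ∈ Bl G (a, b) := by
    unfold Bl
    exact Finset.mem_union_right _ (mem_N.2 hab.symm)
  have hb : b ∈ Bl G (a, b) := by
    unfold Bl
    exact Finset.mem_union_left _ (mem_N.2 hab)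
  have haP : a ∈ Bl G (a, b) ∪ L := Finset.mem_union_left _ ha
  have hbP : b ∈ Bl G (a, b) ∪ L := Finset.mem_union_left _ hb
  have hBA : ∀ x ∈ Bl G (a, b), x ∉ A := fun x hx hxA => Finset.disjoint_left.1 hdis hxA hx
  have wab : Wk G (Bl G (a, b) ∪ L) a b 1 := Wk.adj haP hbP hab
  -- the elements of the ball
  have hball : ∀ x ∈ Bl G (a, b), Wk G (Bl G (a, b) ∪ L) x a 1 ∨ Wk G (Bl G (a, b) ∪ L) x b 1 := by
    intro x hx
    have hxP : x ∈ Bl G (a, b) ∪ L := Finset.mem_union_left _ hx
    unfold Bl at hx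
    rcases Finset.mem_union.1 hx with h | h
    · exact Or.inl (Wk.adj hxP haP (mem_N.1 h).symm)
    · exact Or.inr (Wk.adj hxP hbP (mem_N.1 h).symm)
  have hleaf : ∀ x ∈ L, ((∃ y ∈ N G a, G.Adj y x) → Wk G (Bl G (a, b) ∪ L) x a 2) ∧
      ((¬ ∃ y ∈ N G a, G.Adj y x) → Wk G (Bl G (a, b) ∪ L) x b 2) := by
    intro x hx
    have hxP : x ∈ Bl G (a, b) ∪ L := Finset.mem_union_right _ hx
    constructor
    · rintro ⟨y, hy, hyx⟩
      have hyP : y ∈ Bl G (a, b) ∪ L := by
        refine Finset.mem_union_left _ ?_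
        unfold Bl
        exact Finset.mem_union_left _ hy
      exact (Wk.adj hxP hyP hyx.symm).trans (Wk.adj hyP haP (mem_N.1 hy).symm)
    · intro hno
      obtain ⟨y, hy, hyx⟩ := hL x hx
      have hyP : y ∈ Bl G (a, b) ∪ L := Finset.mem_union_left _ hy
      unfold Bl at hy
      rcases Finset.mem_union.1 hy with h | h
      · exact absurd ⟨y, h, hyx⟩ hno
      · exact (Wk.adj hxP hyP hyx.symm).trans (Wk.adj hyP hbP (mem_N.1 h).symm)
  -- everything
  have hall : ∀ x ∈ Bl G (a, b) ∪ L,
      Wk G (Bl G (a, b) ∪ L) x a 2 ∨ Wk G (Bl G (a, b) ∪ L) x b 2 := by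
    intro x hx
    rcases Finset.mem_union.1 hx with h | h
    · rcases hball x h with h1 | h1
      · exact Or.inl (h1.mono (by omega))
      · exact Or.inr (h1.mono (by omega))
    · by_cases hs : ∃ y ∈ N G a, G.Adj y x
      · exact Or.inl ((hleaf x h).1 hs)
      · exact Or.inr ((hleaf x h).2 hs)
  have join : ∀ x y : V, ∀ m n : ℕ,
      (Wk G (Bl G (a, b) ∪ L) x a m ∨ Wk G (Bl G (a, b) ∪ L) x b m) →
      (Wk G (Bl G (a, b) ∪ L) y a n ∨ Wk G (Bl G (a, b) ∪ L) y b n) →
      Wk G (Bl G (a, b) ∪ L) x y (m + n + 1) := by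
    intro x y m n h1 h2
    rcases h1 with h1 | h1
    · rcases h2 with h2 | h2
      · exact (h1.trans h2.symm).mono (by omega)
      · exact ((h1.trans wab).trans h2.symm).mono (by omega)
    · rcases h2 with h2 | h2
      · exact ((h1.trans wab.symm).trans h2.symm).mono (by omega)
      · exact (h1.trans h2.symm).mono (by omega)
  refine ⟨⟨a, haP⟩, fun x => decide (∃ y ∈ N G a, G.Adj y x), ?_⟩
  intro x hx y hy
  refine ⟨(join x y 2 2 (hall x hx) (hall y hy)).lk, ?_⟩
  intro hc
  by_cases hxA : x ∈ A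
  · by_cases hyA : y ∈ A
    · have hsame : decide (∃ z ∈ N G a, G.Adj z x) = decide (∃ z ∈ N G a, G.Adj z y) := by
        rcases hc with hc | hc | hc
        · exact absurd hxA hc
        · exact absurd hyA hc
        · exact hc
      have hxL : x ∈ L := by
        rcases Finset.mem_union.1 hx with h | h
        · exact absurd hxA (hBA x h)
        · exact h
      have hyL : y ∈ L := by
        rcases Finset.mem_union.1 hy with h | h
        · exact absurd hyA (hBA y h)
        · exact h
      by_cases hs : ∃ z ∈ N G a, G.Adj z x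
      · have hs' : ∃ z ∈ N G a, G.Adj z y := by
          rw [decide_eq_true hs] at hsame
          exact of_decide_eq_true hsame.symm
        exact (((hleaf x hxL).1 hs).trans ((hleaf y hyL).1 hs').symm).lk
      · have hs' : ¬ ∃ z ∈ N G a, G.Adj z y := by
          rw [decide_eq_false hs] at hsame
          exact of_decide_eq_false hsame.symm
        exact (((hleaf x hxL).2 hs).trans ((hleaf y hyL).2 hs').symm).lk
    · have hyB : y ∈ Bl G (a, b) := by
        rcases Finset.mem_union.1 hy with h | h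
        · exact h
        · exact absurd (hLA h) hyA
      exact (join x y 2 1 (hall x hx) (hball y hyB)).lk
  · have hxB : x ∈ Bl G (a, b) := by
      rcases Finset.mem_union.1 hx with h | h
      · exact h
      · exact absurd (hLA h) hxA
    exact (join x y 1 2 (hball x hxB) (hall y hy)).lk

end Pool.Agent.L0h71.MN
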